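import Pool.Agent.Y116.PA.Main
import Pool.Agent.Y116.UV.TB

/-!
# Parshin's conjecture and systems of bilinear equations
-/

set_option autoImplicit false

open CategoryTheory AlgebraicGeometry Pool.Agent.Y116.UV Pool.Agent.Y101.Th
open Pool.Agent.Y101.Th.RX Pool.Agent.Y116.PA

namespace Pool.Agent.Results.MP_de59b4_ag.BilinearEquations

variable {k : Type} [Field k] {T : CptCoh k}

lemma all_dim (hT : IsCptCoh T) (d : ℕ) :
    (∀ X : Sch k, SmProj X → topologicalKrullDim X.left ≤ d → Parshin T X) ↔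
      ∀ X : Sch k, FT True X → topologicalKrullDim X.left ≤ d → Parshin T X :=
  ⟨hT.alterations d, fun h X hX hd => h X hX.ft hd⟩

lemma dim_iff [Finite k] (hT : IsCptCoh T) (d : ℕ) :
    (∀ X : Sch k, SmProj X → topologicalKrullDim X.left ≤ d → Parshin T X) ↔
      ∀ (a b c : ℕ) (t : Fin a → Fin b → Fin c → k), c ≤ d + 2 → Parshin T (bilS t) :=
  (all_dim hT d).trans (r_dim (ru_parshin hT) d)

/-- **Parshin's conjecture, bilinear equations and one degree.** Let `k` be a finite field. -/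
theorem result [Finite k] (hT : IsCptCoh T) :
    (∀ d : ℕ, (∀ X : Sch k, SmProj X → topologicalKrullDim X.left ≤ d → Parshin T X) ↔
      ∀ (a b c : ℕ) (t : Fin a → Fin b → Fin c → k), (b ≤ d + 2 ∨ c ≤ d + 2) →
        ∀ m, OneDegree T (bilTorus t m)) ∧
    ((∀ X : Sch k, SmProj X → Parshin T X) ↔
      ∀ (a b c : ℕ) (t : Fin a → Fin b → Fin c → k) (m : ℕ), OneDegree T (bilTorus t m)) ∧
    ((Nat.card k).Prime → ∀ d : ℕ,
      (∀ X : Sch k, SmProj X → topologicalKrullDim X.left ≤ d → Parshin T X) ↔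
      ∀ (a b : ℕ) (t : Fin a → Fin b → Fin (d + 2) → k), (∀ i j l, t i j l = 0 ∨ t i j l = 1) →
        ∀ m, OneDegree T (bilTorus t m)) ∧
    ∀ (a b c : ℕ) (t : Fin a → Fin b → Fin c → k), (b ≤ 3 ∨ c ≤ 3) → Parshin T (bilS t) := by
  have hP := ru_parshin hT
  refine ⟨fun d => ⟨fun h a b c t hm => ?_, fun h => ?_⟩, ⟨fun h a b c t => ?_, fun h X hX => ?_⟩,
    fun hk d => ⟨fun h a b t ht => ?_, fun h => ?_⟩, fun a b c t hm => ?_⟩
  · exact (bil_one hT t).1 (bil_either hP.dn ((dim_iff hT d).1 h) t hm)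
  · exact (dim_iff hT d).2 fun a b c t hc => (bil_one hT t).2 (h a b c t (Or.inr hc))
  · exact (bil_one hT t).1 ((dim_iff hT c).1 (fun X hX _ => h X hX) a b c t (by omega))
  · have h1 := (r_all hP).2 fun a b c t => (bil_one hT t).2 (h a b c t)
    exact h1 X hX.ft
  · exact (bil_one hT t).1 ((dim_iff hT d).1 h a b (d + 2) t le_rfl)
  · exact (all_dim hT d).2 ((r_dim_frac (isFrac_of_surj (int_surj hk)) hP d).2
      fun a b t ht => (bil_one hT t).2 (h a b t ht))
  · refine bil_either hP.dn ((dim_iff hT 1).1 fun X hX hd => hT.curves X hX ?_) t hm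
    exact_mod_cast hd

end Pool.Agent.Results.MP_de59b4_ag.BilinearEquations
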