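import Mathlib
import Pool.Agent.Y1.CT.LThms
import Pool.Agent.Y156.P.Main
import Pool.Agent.Y156.P.Crit

/-!
# Parshin's conjecture on motivic cohomology for the products of all varieties with abelian
varieties of prime dimension

Let `p` be a prime number, `q = p ^ a`, and let `K i` (`i` in a finite set) be CM fields of degree
`2 g i`, where every `g i` is `1` or a prime number, and `π i` Weil numbers for `q` in `K i` such that
each power `(π i) ^ n`, `n ≥ 1`, generates `K i`. By Honda and Tate they correspond to abelian
varieties `A i` over the field with `q` elements which are geometrically simple, that is, simple over
the algebraic closure of this field, and not supersingular; all geometrically simple abelian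
varieties of dimension `g i` with commutative geometric endomorphism ring that are not supersingular
occur here. If `g i` is an odd prime number and `K i` has a quadratic subfield, the slopes of `π i`
are assumed to have odd denominators (`OddSlopes`), for instance `A i` is ordinary. Besides this
there are no conditions on `π i`, and none on the Galois group of `K i` (`IsPrimeWeil`). The
condition on the slopes is necessary: if `K i` contains an imaginary quadratic field then for the
slopes `0, 1 / 2, 1` (`g i = 3`) and similar ones there are exotic Tate classes (Weil classes) on
powers of `A i`.

The fields `K i` are pairwise independent (`PairwiseIndep`): for `i ≠ k` and all complex embeddings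
`φ` of `K i` and `ψ` of `K k` some automorphism of `ℂ` is the identity on `φ (K i)` and the complex
conjugation on `ψ (K k)`. This is no condition if there is only one field. By the second part of the
theorem (`PrimeFieldsIndependent`) fields of pairwise different degrees are pairwise independent if
all of them, except perhaps the one of smallest degree, have odd prime numbers `g i` and no quadratic
subfields.

Let `f i` be monic polynomials whose complex roots are conjugates of `π i` (`IsPolyOf`), for instance
powers of the characteristic polynomials of Frobenius of the `A i`.
Let `A` be an abelian variety over the field with `Q = q ^ s`
elements which is isogenous to a product of powers of abelian varieties coming from the field with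
`q` elements, with characteristic polynomials `f i`, and let `Z` be **any** smooth projective variety
over the field with `Q` elements such that

* the eigenvalues `ρ` of Frobenius on the cohomology of `Z` and their conjugates are independent of
  the fields `K i` (`Independent`): for each complex embedding `ψ` of `K i` there is an automorphism
  `τ` of `ℂ` which fixes a power of `ρ` and is the complex conjugation on `ψ (K i)`. This is so if the
  eigenvalues have powers in a number field which is linearly disjoint from the normal closures of
  the `K i`, or powers in a totally real field (take for `τ` the complex conjugation).

There are finitely many products `D t` of `c t` divisors on `A` such that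
`H^i(A × Z, ℚ(j)) = ⨁ D t × H^(i - 2 c t)(Z, ℚ(j - c t))`, and **for all `i`, `j` the group
`H^i(A × Z, ℚ(j))` vanishes if and only if the groups `H^(i - 2 k)(Z, ℚ(j - k))`,
`0 ≤ k ≤ dim A`, vanish.** So `P^n` for `A × Z` is equivalent to `P^m` for `Z`, `n - dim A ≤ m ≤ n`; in
particular `P^n` holds for `A` and all `n`.

The framework is the one of helper156: `AbelianData` contains the Chow ring, the correspondences and
the cohomology of `A`, with their standard properties (`IsAbelian`), among them Kimura nilpotence and
the theorem of Tate on divisors; `RelData` contains the groups of `Z` and `A × Z` (motivic or `ℓ`-adic
cohomology) with the products and push-forwards with classes on `A`, and the operation of the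
correspondences and of Frobenius. The condition on the eigenvalues (`HasIndependent`) is that the
Frobenius endomorphism of `Z` satisfies on the groups of `A × Z` a polynomial with independent
roots.

The third part of the theorem (`PrimeNumbersIndependent`): if the `g i` are odd prime numbers and the
`K i` have no quadratic subfields, then **all** nonzero algebraic numbers `ρ` of degree less than
`2 g i` over the rational numbers, for all `i`, are independent of the fields `K i`. So the condition
on the eigenvalues of `Z` is satisfied if the Betti numbers of `Z` are less than `2 g i` for all `i`:
the eigenvalues in each degree are roots of a rational polynomial of this degree. For pairwise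
different odd prime numbers `g i` and fields `K i` without quadratic subfields no other condition is
left.

Known results of this kind are about families, with exceptions: almost all isogeny classes
(`AlmostAllAbelianFactors`), almost all slope types (`AllCMTypesTimes`, by helper1, whose library is
used here). Here there are no exceptions. That the powers of one abelian variety of prime dimension
have only the Tate classes generated by divisors is a theorem of Tankeev (for CM types: Kubota,
Ribet); new are the products of several ones and the relations with the eigenvalues of `Z`.

The proof. Suppose that the product of `ρ` and of some eigenvalues `φ (π i)` of `A`, no two of them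
complex conjugate, is a power of `q`, up to a root of unity. By the argument of `AllCMTypesTimes` it
is sufficient to prove for each field `K = K i`, `g = g i`, the following. Let `w (φ)` be the slope
of `φ (π)` minus `1 / 2`, a function on the complex embeddings of `K` which is odd, that is, changes
the sign under complex conjugation. Then `w` is not orthogonal to a nonzero space `S` of odd rational
functions which is stable under the automorphisms of `ℂ`. Suppose that it is. First, there are
two different embeddings `φ`, `φ'` with `w (τ φ) = w (τ φ')` for all automorphisms `τ`, or `S` is
spanned by a function `ε` with values `1` and `-1`, and `g` is odd. To see this for odd `g`, let `σ` be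
an element of order `g` of the image of the group of automorphisms in the permutations of the
embeddings (Cauchy). It has two orbits `C` and `c C`, exchanged by complex conjugation `c`. For
`u ∈ S` the cyclic correlations of the restrictions of `w τ` and `u` to `C` are zero. Since the
cyclotomic polynomial of order `g` is irreducible over `ℚ` one of the two restrictions is constant. If
all `w τ` are constant on `C`, take `φ ∈ C`, `φ' = σ φ`. If not, all `u ∈ S` are constant on `C`; then
`K` has a quadratic subfield, and the sum of `w` over the `g` elements of `C` is zero. This is
impossible since `2 d w` has odd values, `d` the odd denominator of the slopes. The cases `g = 1, 2`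
are elementary. Finally, if `w (τ φ) = w (τ φ')` for all `τ` then all absolute values (archimedean,
`p`-adic and `l`-adic) of all conjugates of the quotient of `φ (π)` and `φ' (π)` are one. By
Kronecker's theorem it is a root of unity, so `φ (π) ^ n = φ' (π) ^ n` for some `n`, and `π ^ n`
does not generate `K`.

For the other parts: by the same argument the space of all odd functions is irreducible if `g` is an
odd prime number and `K` has no quadratic subfield. If there is no automorphism `τ` which fixes `ρ`
and conjugates `ψ`, then the difference of the characteristic functions of the orbits of `ψ` and of
its conjugate under the stabilizer of `ρ` is a nonzero odd function, and its translates, which are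
numbered by the conjugates of `ρ` and come in pairs with opposite signs, span all odd functions; so
the degree of `ρ` is at least `2 g`. For the second part take for `ρ` a generator of the smaller
field.
-/

set_option autoImplicit false

namespace Pool.Agent.Results.MP_de59b4_ag.PrimeDimensionFactors

open NumberField Polynomial Pool.Agent.H977R3.CM Pool.Agent.Y1.CT Pool.Agent.Y156.P

/-- **Parshin's conjecture on motivic cohomology for `A × Z` is equivalent to the one for `Z`, for
all products `A` of powers of abelian varieties of prime dimension and all independent varieties
`Z`.** -/
theorem result :
    (∀ (p : ℕ) [Fact p.Prime] (a : ℕ), 0 < a → ∀ (I : Type) [Fintype I] (K : I → Type)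
      [∀ i, Field (K i)] [∀ i, NumberField (K i)] [∀ i, IsCMField (K i)], PairwiseIndep K →
      ∀ (π : ∀ i, K i) (f : I → ℤ[X]), (∀ i, IsPrimeWeil p a (π i)) →
      (∀ i, IsPolyOf (π i) (f i)) → L.ParshinTimes K (p ^ a) f) ∧
    PrimeFieldsIndependent ∧ PrimeNumbersIndependent :=
  ⟨fun _ _ _ ha _ _ _ _ _ _ hK _ _ hπ hf =>
    L.parshinTimes (Nat.one_lt_pow ha.ne' (Fact.out : Nat.Prime _).one_lt) (noRel ha hK hπ hf),
    primeFieldsIndependent_holds, primeNumbersIndependent_holds⟩

end Pool.Agent.Results.MP_de59b4_ag.PrimeDimensionFactors
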